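import Pool.Agent.H133Z.ConfStruct

set_option autoImplicit false

namespace Pool.Agent.Results.MP_639dfe_co.AWqoSix

open Pool.Agent.H133Z.Conf

/-- The planar configurations without six points in general position are well-quasi-ordered by
the subconfiguration relation. -/
theorem result (S : ℕ → Finset (ℝ × ℝ)) (hS : ∀ n, NoGen 6 (S n)) :
    ∃ i j, i < j ∧ SubConf (S i) (S j) :=
  wqo_six S hS

end Pool.Agent.Results.MP_639dfe_co.AWqoSix
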